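import Pool.Agent.H30.Diam.Stubs

/-! Project DIAM, stub 18: the even case for parity families, from stage 1, the structure lemma and
the exact step. -/

namespace Pool.Agent.H31.Diam

open Finset Pool.Agent.H30.Diam

section shift
variable {V : Type} [DecidableEq V]

theorem mem_sh {X : Finset V} {𝓔 : Finset (Finset V)} {F : Finset V} :
    F ∈ sh X 𝓔 ↔ symmDiff F X ∈ 𝓔 := by
  unfold sh
  rw [Finset.mem_image]
  constructor
  · rintro ⟨G, hG, rfl⟩
    rwa [symmDiff_symmDiff_cancel_right]
  · intro h
    exact ⟨symmDiff F X, h, symmDiff_symmDiff_cancel_right _ _⟩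

theorem sh_sh (X Y : Finset V) (𝓔 : Finset (Finset V)) :
    sh Y (sh X 𝓔) = sh (symmDiff Y X) 𝓔 := by
  ext F
  rw [mem_sh, mem_sh, mem_sh, symmDiff_assoc]

theorem card_symmDiff_parity (A B : Finset V) :
    (symmDiff A B).card + 2 * (A ∩ B).card = A.card + B.card := by
  have h1 : (A \ B).card + (A ∩ B).card = A.card := Finset.card_sdiff_add_card_inter A B
  have h2 : (B \ A).card + (B ∩ A).card = B.card := Finset.card_sdiff_add_card_inter B A
  have h3 : (symmDiff A B).card = (A \ B).card + (B \ A).card := by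
    rw [symmDiff_def, Finset.sup_eq_union, Finset.card_union_of_disjoint]
    exact disjoint_sdiff_sdiff
  rw [Finset.inter_comm B A] at h2
  omega

theorem fam_sh {d : ℕ} {𝓔 : Finset (Finset V)} (h : Fam d 𝓔) {X : Finset V} (hX : Even X.card) :
    Fam d (sh X 𝓔) := by
  refine ⟨fun F hF G hG => ?_, fun F hF => ?_⟩
  · have h1 := h.diam _ (mem_sh.1 hF) _ (mem_sh.1 hG)
    have h2 : symmDiff (symmDiff F X) (symmDiff G X) = symmDiff F G := by
      rw [symmDiff_comm G X, ← symmDiff_assoc, symmDiff_symmDiff_cancel_right]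
    rwa [h2] at h1
  · have h1 := h.par _ (mem_sh.1 hF)
    have h2 := card_symmDiff_parity F X
    obtain ⟨k, hk⟩ := hX
    omega

theorem count_sh (d : ℕ) (X A : Finset V) (𝓔 : Finset (Finset V)) :
    (𝓔.filter (fun F => d < (symmDiff F (symmDiff X A)).card)).card =
      ((sh X 𝓔).filter (fun F => d < (symmDiff F A).card)).card := by
  have h : (sh X 𝓔).filter (fun F => d < (symmDiff F A).card) =
      (𝓔.filter (fun F => d < (symmDiff F (symmDiff X A)).card)).image (fun F => symmDiff F X) := by
    ext F
    simp only [Finset.mem_filter, Finset.mem_image, mem_sh]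
    constructor
    · rintro ⟨h1, h2⟩
      refine ⟨symmDiff F X, ⟨h1, ?_⟩, symmDiff_symmDiff_cancel_right _ _⟩
      rwa [symmDiff_assoc, symmDiff_symmDiff_cancel_left]
    · rintro ⟨G, ⟨h1, h2⟩, rfl⟩
      rw [symmDiff_symmDiff_cancel_right]
      refine ⟨h1, ?_⟩
      rwa [symmDiff_assoc]
  rw [h, Finset.card_image_of_injective]
  intro F G hFG
  exact symmDiff_left_injective X hFG

end shift

theorem eps_nonneg (i : ℕ) : 0 ≤ eps i := by unfold eps; positivity

theorem eps_sum (N : ℕ) : ∑ i ∈ Finset.range N, eps (i + 2) ≤ 1 / 4 := by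
  have h : ∀ N : ℕ, ∑ i ∈ Finset.range N, eps (i + 2) ≤ 1 / 4 - 1 / 4 * (1 / 4096) ^ N := by
    intro N
    induction N with
    | zero => simp
    | succ N ih =>
      rw [Finset.sum_range_succ]
      have h1 : eps (N + 2) ≤ 1 / 4 * (1 / 4096) ^ N - 1 / 4 * (1 / 4096) ^ (N + 1) := by
        have h2 : (0 : ℝ) ≤ (1 / 4096) ^ N := by positivity
        have h3 : eps (N + 2) = (1 / 4096) ^ N * (1 / 2 ^ 9 * (1 / 4096) ^ 2) := by
          unfold eps
          rw [pow_add]
          ring
        have h4 : (1 / 4 : ℝ) * (1 / 4096) ^ N - 1 / 4 * (1 / 4096) ^ (N + 1) =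
            (1 / 4096) ^ N * (1 / 4 - 1 / 4 * (1 / 4096)) := by
          rw [pow_succ]
          ring
        rw [h3, h4]
        exact mul_le_mul_of_nonneg_left (by norm_num) h2
      linarith
  have h1 := h N
  have h2 : (0 : ℝ) ≤ (1 / 4096) ^ N := by positivity
  linarith

theorem par_large {d m : ℕ} {q : ℝ} (h : Par d m q) : 2 ^ 20 * d ≤ m := by
  have h1 : q ^ 1601 ≤ q := by
    have h2 : q ≤ 1 := h.q1.trans (by norm_num)
    calc q ^ 1601 ≤ q ^ 1 := pow_le_pow_of_le_one h.q0.le h2 (by norm_num)
      _ = q := pow_one q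
  have h2 : (40 : ℝ) * d ≤ 1 / 10 ^ 15 * m := by
    rw [← h.hq]
    exact mul_le_mul_of_nonneg_right (h1.trans h.q1) (Nat.cast_nonneg m)
  have h3 : (2 ^ 20 * d : ℝ) ≤ m := by
    have h4 : (0 : ℝ) ≤ d := Nat.cast_nonneg d
    have h5 : (40 : ℝ) * 10 ^ 15 * d ≤ m := by
      have := mul_le_mul_of_nonneg_left h2 (by positivity : (0 : ℝ) ≤ 10 ^ 15)
      have e1 : (10 : ℝ) ^ 15 * (1 / 10 ^ 15 * (m : ℝ)) = (m : ℝ) := by
        field_simp
      have e2 : (10 : ℝ) ^ 15 * (40 * (d : ℝ)) = 40 * 10 ^ 15 * (d : ℝ) := by ring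
      rw [e1, e2] at this
      exact this
    nlinarith
  exact_mod_cast h3

/-- sets larger than `d` are counted by the levels. -/
theorem over_le {V : Type} [Fintype V] [DecidableEq V] {d : ℕ} {𝓔 : Finset (Finset V)}
    (h : Fam d 𝓔) (hG : Good d 𝓔 1)
    (hd : ((lev 𝓔 (d + 2)).card : ℝ) ≤ del * U d (Fintype.card V)) :
    (𝓔.filter (fun F => d < F.card)).card ≤ (Fintype.card V - 3).choose (d - 1) := by
  classical
  set N := Fintype.card V with hN
  have hsub : 𝓔.filter (fun F => d < F.card) ⊆
      lev 𝓔 (d + 2) ∪ (Finset.range N).biUnion (fun i => lev 𝓔 (d + 2 * (i + 2))) := by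
    intro F hF
    rw [Finset.mem_filter] at hF
    have h1 := h.par F hF.1
    have h2 : F.card ≤ N := Finset.card_le_univ F
    obtain ⟨j, hj⟩ : ∃ j, F.card = d + 2 * j := ⟨(F.card - d) / 2, by omega⟩
    rw [Finset.mem_union, Finset.mem_biUnion]
    rcases Nat.lt_or_ge j 2 with h3 | h3
    · left
      unfold lev
      rw [Finset.mem_filter]
      refine ⟨hF.1, ?_⟩
      have : j = 1 := by omega
      rw [hj, this]
    · right
      refine ⟨j - 2, Finset.mem_range.2 (by omega), ?_⟩
      unfold lev
      rw [Finset.mem_filter]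
      refine ⟨hF.1, ?_⟩
      omega
  have h1 : ((𝓔.filter (fun F => d < F.card)).card : ℝ) ≤
      (lev 𝓔 (d + 2)).card + ∑ i ∈ Finset.range N, ((lev 𝓔 (d + 2 * (i + 2))).card : ℝ) := by
    have h2 : (𝓔.filter (fun F => d < F.card)).card ≤
        (lev 𝓔 (d + 2)).card + ∑ i ∈ Finset.range N, (lev 𝓔 (d + 2 * (i + 2))).card := by
      refine (Finset.card_le_card hsub).trans ((Finset.card_union_le _ _).trans ?_)
      exact Nat.add_le_add_left Finset.card_biUnion_le _
    exact_mod_cast h2
  have hU : (0 : ℝ) ≤ U d N := by unfold U; positivity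
  have h2 : ∑ i ∈ Finset.range N, ((lev 𝓔 (d + 2 * (i + 2))).card : ℝ) ≤ 1 / 4 * U d N := by
    calc ∑ i ∈ Finset.range N, ((lev 𝓔 (d + 2 * (i + 2))).card : ℝ)
        ≤ ∑ i ∈ Finset.range N, eps (i + 2) * U d N :=
          Finset.sum_le_sum fun i _ => hG (i + 2) (by omega)
      _ = (∑ i ∈ Finset.range N, eps (i + 2)) * U d N := by rw [Finset.sum_mul]
      _ ≤ 1 / 4 * U d N := mul_le_mul_of_nonneg_right (eps_sum N) hU
  have h3 : del * U d N ≤ 1 / 2 * U d N :=
    mul_le_mul_of_nonneg_right (by unfold del; norm_num) hU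
  have h4 : ((𝓔.filter (fun F => d < F.card)).card : ℝ) ≤ U d N := by linarith
  unfold U at h4
  exact_mod_cast h4

theorem four_even_subsets {V : Type} [DecidableEq V] {Q : Finset V} (hQ : Q.card = 3) :
    (Q.powerset.filter (fun A => Even A.card)).card ≤ 4 ∧
      (Q.powerset.filter (fun A => Even A.card)).Nonempty ∧
      4 ≤ (Q.powerset.filter (fun A => Even A.card)).card := by
  classical
  obtain ⟨x, y, z, hxy, hxz, hyz, rfl⟩ := Finset.card_eq_three.1 hQ
  have h : ({x, y, z} : Finset V).powerset.filter (fun A => Even A.card) =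
      {∅, {x, y}, {x, z}, {y, z}} := by
    ext A
    simp only [Finset.mem_filter, Finset.mem_powerset, Finset.mem_insert, Finset.mem_singleton]
    constructor
    · rintro ⟨h1, h2⟩
      have h3 : A.card ≤ 3 := by
        rw [← hQ]; exact Finset.card_le_card h1
      have h4 : A.card = 0 ∨ A.card = 2 := by
        obtain ⟨k, hk⟩ := h2
        omega
      rcases h4 with h4 | h4
      · left; exact Finset.card_eq_zero.1 h4
      · right
        have h5 : ∃ w ∈ ({x, y, z} : Finset V), A = ({x, y, z} : Finset V).erase w := by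
          have h6 : (({x, y, z} : Finset V) \ A).card = 1 := by
            rw [Finset.card_sdiff_of_subset h1, hQ, h4]
          obtain ⟨w, hw⟩ := Finset.card_eq_one.1 h6
          refine ⟨w, ?_, ?_⟩
          · have : w ∈ ({x, y, z} : Finset V) \ A := by rw [hw]; exact Finset.mem_singleton_self w
            exact (Finset.mem_sdiff.1 this).1
          · rw [← Finset.sdiff_singleton_eq_erase, ← hw, Finset.sdiff_sdiff_eq_self h1]
        obtain ⟨w, hw, rfl⟩ := h5
        simp only [Finset.mem_insert, Finset.mem_singleton] at hw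
        rcases hw with rfl | rfl | rfl
        · right; right
          ext t; simp only [Finset.mem_erase, Finset.mem_insert, Finset.mem_singleton]
          constructor
          · rintro ⟨h5, h6 | h6 | h6⟩
            · exact absurd h6 h5
            · exact Or.inl h6
            · exact Or.inr h6
          · rintro (rfl | rfl)
            · exact ⟨hxy.symm, Or.inr (Or.inl rfl)⟩
            · exact ⟨hxz.symm, Or.inr (Or.inr rfl)⟩
        · right; left
          ext t; simp only [Finset.mem_erase, Finset.mem_insert, Finset.mem_singleton]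
          constructor
          · rintro ⟨h5, h6 | h6 | h6⟩
            · exact Or.inl h6
            · exact absurd h6 h5
            · exact Or.inr h6
          · rintro (rfl | rfl)
            · exact ⟨hxy, Or.inl rfl⟩
            · exact ⟨hyz.symm, Or.inr (Or.inr rfl)⟩
        · left
          ext t; simp only [Finset.mem_erase, Finset.mem_insert, Finset.mem_singleton]
          constructor
          · rintro ⟨h5, h6 | h6 | h6⟩
            · exact Or.inl h6
            · exact Or.inr h6
            · exact absurd h6 h5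
          · rintro (rfl | rfl)
            · exact ⟨hxz, Or.inl rfl⟩
            · exact ⟨hyz, Or.inr (Or.inl rfl)⟩
    · rintro (rfl | rfl | rfl | rfl)
      · exact ⟨Finset.empty_subset _, by simp⟩
      · refine ⟨?_, by rw [Finset.card_pair hxy]; exact even_two⟩
        intro t; simp only [Finset.mem_insert, Finset.mem_singleton]; tauto
      · refine ⟨?_, by rw [Finset.card_pair hxz]; exact even_two⟩
        intro t; simp only [Finset.mem_insert, Finset.mem_singleton]; tauto
      · refine ⟨?_, by rw [Finset.card_pair hyz]; exact even_two⟩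
        intro t; simp only [Finset.mem_insert, Finset.mem_singleton]; tauto
  have hcard : ({∅, {x, y}, {x, z}, {y, z}} : Finset (Finset V)).card = 4 := by
    have e1 : ({y, z} : Finset V) ∉ (∅ : Finset (Finset V)) := Finset.notMem_empty _
    have n1 : ({x, z} : Finset V) ≠ {y, z} := by
      intro h
      have : x ∈ ({y, z} : Finset V) := by rw [← h]; simp
      simp only [Finset.mem_insert, Finset.mem_singleton] at this
      tauto
    have n2 : ({x, y} : Finset V) ≠ {x, z} := by
      intro h
      have : y ∈ ({x, z} : Finset V) := by rw [← h]; simp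
      simp only [Finset.mem_insert, Finset.mem_singleton] at this
      rcases this with h | h
      · exact hxy h.symm
      · exact hyz h
    have n3 : ({x, y} : Finset V) ≠ {y, z} := by
      intro h
      have : x ∈ ({y, z} : Finset V) := by rw [← h]; simp
      simp only [Finset.mem_insert, Finset.mem_singleton] at this
      tauto
    rw [Finset.card_insert_of_notMem, Finset.card_insert_of_notMem, Finset.card_insert_of_notMem,
      Finset.card_singleton]
    · rwa [Finset.mem_singleton]
    · simp only [Finset.mem_insert, Finset.mem_singleton]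
      tauto
    · simp only [Finset.mem_insert, Finset.mem_singleton]
      rintro (h | h | h)
      · exact (Finset.insert_ne_empty _ _) h.symm
      · exact (Finset.insert_ne_empty _ _) h.symm
      · exact (Finset.insert_ne_empty _ _) h.symm
  rw [h, hcard]
  exact ⟨le_rfl, ⟨∅, by simp⟩, le_rfl⟩

/-- DIAM-18. -/
theorem even (h1 : S_stage1) (h2 : S_struct) (h3 : S_exact) : S_even := by
  classical
  intro d m q hpar V _ _ hV 𝓔 hF
  subst hV
  -- optimal centre
  let S : Finset (Finset V) :=
    (Finset.univ : Finset (Finset V)).filter (fun X => Even X.card ∧ Good d (sh X 𝓔) 1)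
  have hS : S.Nonempty := by
    obtain ⟨X, hX, hG⟩ := h1 d _ q hpar V rfl 𝓔 hF
    exact ⟨X, Finset.mem_filter.2 ⟨Finset.mem_univ _, hX, hG⟩⟩
  obtain ⟨X, hXS, hmin⟩ := S.exists_min_image (fun X => (lev (sh X 𝓔) (d + 2)).card) hS
  obtain ⟨-, hXe, hXG⟩ := Finset.mem_filter.1 hXS
  have hF' := fam_sh hF hXe
  by_cases hdel : del * U d (Fintype.card V) ≤ (lev (sh X 𝓔) (d + 2)).card
  · obtain ⟨Q, hQ, hb1, hb2, -, -⟩ := h2 d _ q hpar V rfl (sh X 𝓔) hF' hXG (by
      intro Y hY hYG
      rw [sh_sh] at hYG ⊢
      refine hmin (symmDiff Y X) (Finset.mem_filter.2 ⟨Finset.mem_univ _, ?_, hYG⟩)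
      have h4 := card_symmDiff_parity Y X
      obtain ⟨k, hk⟩ := hXe
      exact ⟨k + 1 - (Y ∩ X).card, by omega⟩) hdel
    have h5 := h3 d hpar.d1 V (par_large hpar) (sh X 𝓔) hF' hXG Q hQ hb1 hb2
    by_contra hcon
    push Not at hcon
    have h6 : ∀ A ∈ Q.powerset.filter (fun A => Even A.card),
        (Fintype.card V - 3).choose (d - 1) + 1 ≤
          ((sh X 𝓔).filter (fun F => d < (symmDiff F A).card)).card := by
      intro A _
      have h7 := hcon (symmDiff X A)
      rw [count_sh] at h7
      exact h7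
    have h7 := Finset.sum_le_sum h6
    rw [Finset.sum_const, smul_eq_mul] at h7
    have h8 := (four_even_subsets hQ).2.2
    have h9 : 4 * ((Fintype.card V - 3).choose (d - 1) + 1) ≤
        (Q.powerset.filter (fun A => Even A.card)).card *
          ((Fintype.card V - 3).choose (d - 1) + 1) := Nat.mul_le_mul_right _ h8
    omega
  · refine ⟨X, ?_⟩
    have h4 := over_le hF' hXG (le_of_not_ge hdel)
    have h5 := count_sh d X ∅ 𝓔
    have h6 : symmDiff X (∅ : Finset V) = X := symmDiff_bot X
    rw [h6] at h5
    rw [h5]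
    have h7 : (sh X 𝓔).filter (fun F => d < (symmDiff F ∅).card) =
        (sh X 𝓔).filter (fun F => d < F.card) := by
      refine Finset.filter_congr fun F _ => ?_
      have : symmDiff F (∅ : Finset V) = F := symmDiff_bot F
      rw [this]
    rw [h7]
    exact h4

end Pool.Agent.H31.Diam
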