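import Pool.Agent.H31.Diam.Even

/-! Project DIAM, stub 19: from parity families on `n + 1` points to families on `n` points. -/

namespace Pool.Agent.H31.Diam

open Finset Pool.Agent.H30.Diam

theorem par_exists (b N : ℕ) (hb : 1 ≤ b) (hN : N ≠ 0) (d m : ℕ) (hd : 1 ≤ d)
    (hm : 40 * b ^ N * d ≤ m) : ∃ q : ℝ, 0 < q ∧ q ≤ 1 / b ∧ q ^ N * m = 40 * d := by
  have hb' : (0 : ℝ) < b := by exact_mod_cast hb
  have hd' : (0 : ℝ) < d := by exact_mod_cast hd
  have hm0 : (0 : ℝ) < m := by
    have h1 : 0 < 40 * b ^ N * d := by positivity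
    exact_mod_cast h1.trans_le hm
  have hm' : (40 : ℝ) * b ^ N * d ≤ m := by exact_mod_cast hm
  have hx : (0 : ℝ) < 40 * d / m := by positivity
  refine ⟨(40 * d / m : ℝ) ^ ((N : ℝ)⁻¹), Real.rpow_pos_of_pos hx _, ?_, ?_⟩
  · have h1 : ((40 * d / m : ℝ) ^ ((N : ℝ)⁻¹)) ^ N = 40 * d / m :=
      Real.rpow_inv_natCast_pow hx.le hN
    have h2 : (40 * d / m : ℝ) ≤ (1 / b : ℝ) ^ N := by
      rw [div_le_iff₀ hm0, div_pow, one_pow, div_mul_eq_mul_div, one_mul,
        le_div_iff₀ (by positivity)]
      calc (40 : ℝ) * d * b ^ N = 40 * b ^ N * d := by ring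
        _ ≤ m := hm'
    rw [← h1] at h2
    exact (pow_le_pow_iff_left₀ (Real.rpow_nonneg hx.le _) (by positivity) hN).1 h2
  · rw [Real.rpow_inv_natCast_pow hx.le hN]
    field_simp

section opt
variable {α : Type} [DecidableEq α]

theorem card_opt (S : Finset (Option α)) :
    S.card = (Finset.eraseNone S).card + (if none ∈ S then 1 else 0) := by
  classical
  split_ifs with h
  · have h1 := Finset.card_eraseNone_eq_card_erase S
    rw [Finset.card_erase_of_mem h] at h1
    have h2 : 1 ≤ S.card := Finset.card_pos.2 ⟨none, h⟩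
    omega
  · have h1 := Finset.card_eraseNone_eq_card_erase S
    rw [Finset.erase_eq_of_notMem h] at h1
    omega

theorem eraseNone_symmDiff (S T : Finset (Option α)) :
    Finset.eraseNone (symmDiff S T) = symmDiff (Finset.eraseNone S) (Finset.eraseNone T) := by
  ext x
  simp only [Finset.mem_eraseNone, Finset.mem_symmDiff]

/-- the extension by a parity point. -/
def ext (d : ℕ) (F : Finset α) : Finset (Option α) :=
  if F.card % 2 = d % 2 then F.map Function.Embedding.some else Finset.insertNone F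

omit [DecidableEq α] in
theorem eraseNone_ext (d : ℕ) (F : Finset α) : Finset.eraseNone (ext d F) = F := by
  unfold ext
  split_ifs with h
  · exact Finset.eraseNone_map_some F
  · exact Finset.eraseNone_insertNone F

omit [DecidableEq α] in
theorem none_mem_ext (d : ℕ) (F : Finset α) : none ∈ ext d F ↔ F.card % 2 ≠ d % 2 := by
  unfold ext
  split_ifs with h
  · simp [h]
  · simp [h]

theorem ext_injective (d : ℕ) : Function.Injective (ext d : Finset α → Finset (Option α)) := by
  intro F G h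
  rw [← eraseNone_ext d F, h, eraseNone_ext]

theorem card_ext_parity (d : ℕ) (F : Finset α) : (ext d F).card % 2 = d % 2 := by
  rw [card_opt, eraseNone_ext]
  have h1 := none_mem_ext d F
  split_ifs with h
  · have := h1.1 h
    omega
  · have : ¬ (F.card % 2 ≠ d % 2) := fun h2 => h (h1.2 h2)
    omega

theorem card_symm_ext (d : ℕ) {F G : Finset α} (h : (symmDiff F G).card ≤ 2 * d) :
    (symmDiff (ext d F) (ext d G)).card ≤ 2 * d := by
  rw [card_opt, eraseNone_symmDiff, eraseNone_ext, eraseNone_ext]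
  have h1 := none_mem_ext d F
  have h2 := none_mem_ext d G
  have h3 := card_symmDiff_parity F G
  split_ifs with h4
  · rw [Finset.mem_symmDiff] at h4
    have h5 : F.card % 2 ≠ G.card % 2 := by
      rcases h4 with ⟨h5, h6⟩ | ⟨h5, h6⟩
      · have h7 := h1.1 h5
        have h8 : ¬ (G.card % 2 ≠ d % 2) := fun h9 => h6 (h2.2 h9)
        omega
      · have h7 := h2.1 h5
        have h8 : ¬ (F.card % 2 ≠ d % 2) := fun h9 => h6 (h1.2 h9)
        omega
    omega
  · omega

theorem card_symm_le (d : ℕ) (F : Finset α) (A : Finset (Option α)) :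
    (symmDiff F (Finset.eraseNone A)).card ≤ (symmDiff (ext d F) A).card := by
  rw [card_opt (symmDiff (ext d F) A), eraseNone_symmDiff, eraseNone_ext]
  omega

end opt

theorem arith_aux (K n d : ℕ) (h : 20 * K * (2 * d) < n) : 40 * K * d ≤ n + 1 := by
  have h1 : 20 * K * (2 * d) = 40 * K * d := by ring
  omega

/-- DIAM-19. -/
theorem final (h : S_even) : S_final := by
  classical
  refine ⟨20 * (10 ^ 15) ^ 1601, fun n d hd hn 𝓕 h𝓕 => ?_⟩
  have hn' := arith_aux _ n d hn
  obtain ⟨q, hq0, hq1, hq2⟩ := par_exists (10 ^ 15) 1601 (by norm_num) (by norm_num) d (n + 1)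
    hd hn'
  clear hn hn'
  have hpar : Par d (n + 1) q := by
    refine ⟨hd, hq0, ?_, hq2⟩
    have h1 : ((10 ^ 15 : ℕ) : ℝ) = 10 ^ 15 := by norm_num
    rw [h1] at hq1
    exact hq1
  have hfam : Fam d (𝓕.image (ext d)) := by
    refine ⟨fun F hF G hG => ?_, fun F hF => ?_⟩
    · obtain ⟨F', hF', rfl⟩ := Finset.mem_image.1 hF
      obtain ⟨G', hG', rfl⟩ := Finset.mem_image.1 hG
      exact card_symm_ext d (h𝓕 F' hF' G' hG')
    · obtain ⟨F', hF', rfl⟩ := Finset.mem_image.1 hF
      exact card_ext_parity d F'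
  obtain ⟨A, hA⟩ := h d (n + 1) q hpar (Option (Fin n)) (by simp) (𝓕.image (ext d)) hfam
  refine ⟨Finset.eraseNone A, ?_⟩
  have h1 : (𝓕.filter (fun F => d < (symmDiff F (Finset.eraseNone A)).card)).card ≤
      ((𝓕.image (ext d)).filter (fun F => d < (symmDiff F A).card)).card := by
    rw [← Finset.card_image_of_injective _ (ext_injective (α := Fin n) d)]
    refine Finset.card_le_card fun F hF => ?_
    obtain ⟨G, hG, rfl⟩ := Finset.mem_image.1 hF
    rw [Finset.mem_filter] at hG ⊢
    exact ⟨Finset.mem_image_of_mem _ hG.1, hG.2.trans_le (card_symm_le d G A)⟩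
  have h2 : n + 1 - 3 = n - 2 := by omega
  rw [h2] at hA
  exact h1.trans hA

end Pool.Agent.H31.Diam
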